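import Pool.Agent.H32.N6.TargetsB

/-!
# Row BTD: three unit entries of a diagonal form are a hyperbolic plane and a unit
-/

set_option autoImplicit false

open Polynomial NumberField IsDedekindDomain Matrix Pool.Agent.H32.QC Pool.Agent.H34.N6
  Pool.Agent.H32.N6

namespace Pool.Agent.H16.N6B

/-- totally isotropic families for matrices over any finite index type -/
def TIg {F ι : Type} [Field F] [Fintype ι] (A : Matrix ι ι F) (r : ℕ) : Prop :=
  ∃ b : Fin r → ι → F, LinearIndependent F b ∧ ∀ i j, b i ⬝ᵥ (A *ᵥ b j) = 0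

theorem tig_of_linear {F ι κ : Type} [Field F] [Fintype ι] [Fintype κ] (A : Matrix ι ι F)
    (B : Matrix κ κ F) (f : (ι → F) →ₗ[F] (κ → F)) (hf : Function.Injective f)
    (h : ∀ x y, f x ⬝ᵥ (B *ᵥ f y) = x ⬝ᵥ (A *ᵥ y)) (r : ℕ) (hA : TIg A r) : TIg B r := by
  obtain ⟨b, hb, hb0⟩ := hA
  refine ⟨fun i => f (b i), ?_, fun i j => ?_⟩
  · exact hb.map' f (LinearMap.ker_eq_bot.2 hf)
  · rw [h]; exact hb0 i j

theorem tig_reindex {F ι κ : Type} [Field F] [Fintype ι] [Fintype κ] (e : ι ≃ κ)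
    (A : Matrix κ κ F) (r : ℕ) : TIg (A.submatrix e e) r ↔ TIg A r := by
  have key : ∀ x y : κ → F, (fun i => x (e i)) ⬝ᵥ (A.submatrix e e *ᵥ fun i => y (e i)) =
      x ⬝ᵥ (A *ᵥ y) := by
    intro x y
    simp only [dotProduct, mulVec, submatrix_apply]
    rw [← Equiv.sum_comp e]
    refine Finset.sum_congr rfl fun i _ => ?_
    rw [← Equiv.sum_comp e]
  constructor
  · intro h
    refine tig_of_linear _ _ (LinearMap.funLeft F F e.symm) ?_ ?_ r h
    · intro x y hxy
      funext i
      have := congrFun hxy (e i)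
      simpa [LinearMap.funLeft_apply] using this
    · intro x y
      rw [← key]
      simp [LinearMap.funLeft_apply]
  · intro h
    refine tig_of_linear _ _ (LinearMap.funLeft F F e) ?_ ?_ r h
    · intro x y hxy
      funext i
      have := congrFun hxy (e.symm i)
      simpa [LinearMap.funLeft_apply] using this
    · intro x y
      exact key x y

theorem tig_congr {F ι : Type} [Field F] [Fintype ι] [DecidableEq ι] (A C D : Matrix ι ι F)
    (h1 : C * D = 1) (h2 : D * C = 1) (r : ℕ) : TIg (Cᵀ * A * C) r ↔ TIg A r := by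
  have key : ∀ x y : ι → F, (C *ᵥ x) ⬝ᵥ (A *ᵥ (C *ᵥ y)) = x ⬝ᵥ ((Cᵀ * A * C) *ᵥ y) := by
    intro x y
    rw [← mulVec_mulVec, ← mulVec_mulVec, dotProduct_mulVec x, vecMul_transpose]
  constructor
  · intro h
    refine tig_of_linear _ _ C.mulVecLin ?_ ?_ r h
    · intro x y hxy
      have := congrArg (fun z => D *ᵥ z) hxy
      simpa [mulVec_mulVec, h2] using this
    · intro x y
      exact key x y
  · intro h
    refine tig_of_linear _ _ D.mulVecLin ?_ ?_ r h
    · intro x y hxy
      have := congrArg (fun z => C *ᵥ z) hxy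
      simpa [mulVec_mulVec, h1] using this
    · intro x y
      have hx : ∀ z : ι → F, C *ᵥ (D *ᵥ z) = z := by
        intro z
        rw [mulVec_mulVec, h1, one_mulVec]
      rw [mulVecLin_apply, mulVecLin_apply, ← key, hx, hx]

theorem fromBlocks_sub {F ι κ μ : Type} [Field F] (M : Matrix κ κ F) (N : Matrix μ μ F)
    (e : ι → κ) : fromBlocks (M.submatrix e e) 0 0 N =
      (fromBlocks M 0 0 N).submatrix (Sum.map e id) (Sum.map e id) := by
  ext i j
  rcases i with i | i <;> rcases j with j | j <;> rfl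

theorem fromBlocks_assoc {F ι κ μ : Type} [Field F] (L : Matrix ι ι F) (M : Matrix κ κ F)
    (N : Matrix μ μ F) : fromBlocks (fromBlocks L 0 0 M) 0 0 N =
      (fromBlocks L 0 0 (fromBlocks M 0 0 N)).submatrix (Equiv.sumAssoc ι κ μ)
        (Equiv.sumAssoc ι κ μ) := by
  ext i j
  rcases i with (i | i) | i <;> rcases j with (j | j) | j <;> rfl

theorem fromBlocks_sub' {F ι κ μ : Type} [Field F] (M : Matrix ι ι F) (N : Matrix μ μ F)
    (e : κ → μ) : fromBlocks M 0 0 (N.submatrix e e) =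
      (fromBlocks M 0 0 N).submatrix (Sum.map id e) (Sum.map id e) := by
  ext i j
  rcases i with i | i <;> rcases j with j | j <;> rfl

/-- `Fin 1 ⊕ Fin n` and `Fin (n + 1)` -/
def e4 (n : ℕ) : Fin 1 ⊕ Fin n ≃ Fin (n + 1) :=
  finSumFinEquiv.trans (finCongr (add_comm 1 n))

/-- `Fin 3 ⊕ Fin n` and `Fin (n + 3)` -/
def e5 (n : ℕ) : Fin 3 ⊕ Fin n ≃ Fin (n + 3) :=
  finSumFinEquiv.trans (finCongr (add_comm 3 n))

theorem pf_BTD (hUNR : T_UNR) (hHYP : Pool.Agent.H32.SAB.T_HYP)
    (hTIH : Pool.Agent.H32.SAB.T_TIH) : T_BTD := by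
  intro F _ _ _ _ h2 n u hu hu0 hu1 hu2 r
  classical
  have h20 : (2 : F) ≠ 0 := by
    intro h; rw [h, norm_zero] at h2; exact zero_ne_one h2
  obtain ⟨d3, hd3⟩ : ∃ d3 : Fin 3 → F, d3 = ![u 0, u 1, u 2] := ⟨_, rfl⟩
  have hd30 : ∀ i, ‖d3 i‖ = 1 := by
    intro i
    rw [hd3]
    fin_cases i
    · exact hu0
    · exact hu1
    · exact hu2
  have hd3ne : ∀ i, d3 i ≠ 0 := by
    intro i h
    have := hd30 i
    rw [h, norm_zero] at this
    exact zero_ne_one this
  obtain ⟨x, hx0, hx⟩ := (hUNR F h2).2.2 d3 hd30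
  obtain ⟨m, hm, B, C3, hB, hBdet, hC3, hC3eq⟩ := hHYP F h20 3 (diagonal d3)
    (by
      show (diagonal d3)ᵀ = diagonal d3
      exact diagonal_transpose d3)
    (by rw [det_diagonal]; exact Finset.prod_ne_zero_iff.2 fun i _ => hd3ne i)
    ⟨x, hx0, by
      rw [← hx]
      simp only [dotProduct, mulVec_diagonal]
      refine Finset.sum_congr rfl fun i _ => ?_
      ring⟩
  have hm1 : m = 1 := by omega
  subst hm1
  obtain ⟨β, hβ⟩ : ∃ β, β = B 0 0 := ⟨_, rfl⟩
  have hBdiag : B = diagonal (fun _ : Fin 1 => β) := by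
    ext i j
    have hi : i = 0 := Subsingleton.elim _ _
    have hj : j = 0 := Subsingleton.elim _ _
    rw [hi, hj, hβ, diagonal_apply_eq]
  -- the value of beta
  have hdet : C3.det ^ 2 * (u 0 * u 1 * u 2) = -β := by
    have h3 := congrArg Matrix.det hC3eq
    rw [det_mul, det_mul, det_transpose, det_diagonal, Matrix.det_reindex_self] at h3
    rw [Pool.Agent.H32.SAB.hyp, Matrix.det_reindex_self, det_fromBlocks_zero₂₁, det_fin_two_of,
      hBdiag, det_diagonal, hd3] at h3
    simp only [Fin.prod_univ_three, Finset.univ_unique, Finset.prod_const, Finset.card_singleton,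
      pow_one] at h3
    simp only [Matrix.cons_val_zero, Matrix.cons_val_one, Matrix.cons_val] at h3
    linear_combination h3
  obtain ⟨u', hu'⟩ : ∃ u' : Fin n → F, u' = fun i => u i.succ.succ.succ := ⟨_, rfl⟩
  -- step 1
  have s1 : TI (diagonal u) (r + 1) ↔ TIg (fromBlocks (diagonal d3) 0 0 (diagonal u')) (r + 1) := by
    have h3 : fromBlocks (diagonal d3) 0 0 (diagonal u') =
        (diagonal u).submatrix (e5 n) (e5 n) := by
      rw [fromBlocks_diagonal, submatrix_diagonal_equiv]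
      congr 1
      funext i
      rcases i with i | i
      · rw [hd3]
        fin_cases i <;> rfl
      · rw [hu']
        show u i.succ.succ.succ = u (e5 n (Sum.inr i))
        congr 1
        ext
        simp only [e5, Fin.val_succ, Equiv.trans_apply, finCongr_apply, Fin.val_cast,
          finSumFinEquiv_apply_right, Fin.val_natAdd]
        omega
    rw [h3, tig_reindex]
    exact Iff.rfl
  -- step 2
  obtain ⟨D3, hD3⟩ : ∃ D3, D3 = C3⁻¹ := ⟨_, rfl⟩
  have hu3 : IsUnit C3.det := isUnit_iff_ne_zero.2 hC3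
  have s2 : TIg (fromBlocks (diagonal d3) 0 0 (diagonal u')) (r + 1) ↔
      TIg (fromBlocks (C3ᵀ * diagonal d3 * C3) 0 0 (diagonal u')) (r + 1) := by
    rw [← tig_congr (fromBlocks (diagonal d3) 0 0 (diagonal u')) (fromBlocks C3 0 0 1)
      (fromBlocks D3 0 0 1)]
    · rw [fromBlocks_transpose, fromBlocks_multiply, fromBlocks_multiply]
      simp
    · rw [fromBlocks_multiply]
      simp [hD3, Matrix.mul_nonsing_inv _ hu3]
    · rw [fromBlocks_multiply]
      simp [hD3, Matrix.nonsing_inv_mul _ hu3]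
  -- step 3
  obtain ⟨w, hw⟩ : ∃ w : Fin (n + 1) → F, w = Fin.cons β u' := ⟨_, rfl⟩
  have s3 : TIg (fromBlocks (C3ᵀ * diagonal d3 * C3) 0 0 (diagonal u')) (r + 1) ↔
      TIg (fromBlocks (!![0, 1; 1, 0] : Matrix (Fin 2) (Fin 2) F) 0 0 (diagonal w)) (r + 1) := by
    have h3 : C3ᵀ * diagonal d3 * C3 =
        (fromBlocks (!![0, 1; 1, 0] : Matrix (Fin 2) (Fin 2) F) 0 0
          (diagonal fun _ : Fin 1 => β)).submatrix finSumFinEquiv.symm finSumFinEquiv.symm := by
      rw [hC3eq, Pool.Agent.H32.SAB.hyp, hBdiag]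
      rfl
    have h4 : fromBlocks (diagonal fun _ : Fin 1 => β) 0 0 (diagonal u') =
        (diagonal w).submatrix (e4 n) (e4 n) := by
      rw [fromBlocks_diagonal, submatrix_diagonal_equiv]
      congr 1
      funext i
      rcases i with i | i
      · have hi : i = 0 := Subsingleton.elim _ _
        rw [hi, hw]
        rfl
      · rw [hw]
        show u' i = (Fin.cons β u' : Fin (n + 1) → F) (e4 n (Sum.inr i))
        have h5 : e4 n (Sum.inr i) = i.succ := by
          ext
          simp [e4]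
        rw [h5, Fin.cons_succ]
    rw [h3, fromBlocks_sub]
    rw [show (Sum.map (⇑(finSumFinEquiv (m := 2) (n := 1)).symm) (id : Fin n → Fin n)) =
      ⇑(Equiv.sumCongr (finSumFinEquiv (m := 2) (n := 1)).symm (Equiv.refl (Fin n))) from rfl,
      tig_reindex, fromBlocks_assoc, tig_reindex, h4, fromBlocks_sub']
    rw [show (Sum.map (id : Fin 2 → Fin 2) (⇑(e4 n))) =
      ⇑(Equiv.sumCongr (Equiv.refl (Fin 2)) (e4 n)) from rfl, tig_reindex]
  -- step 4
  have s4 : TIg (fromBlocks (!![0, 1; 1, 0] : Matrix (Fin 2) (Fin 2) F) 0 0 (diagonal w)) (r + 1) ↔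
      TI (diagonal w) r := by
    have h3 : fromBlocks (!![0, 1; 1, 0] : Matrix (Fin 2) (Fin 2) F) 0 0 (diagonal w) =
        (Pool.Agent.H32.SAB.hyp (diagonal w)).submatrix finSumFinEquiv finSumFinEquiv := by
      rw [Pool.Agent.H32.SAB.hyp]
      ext i j
      simp
    rw [h3, tig_reindex]
    exact hTIH F h20 (n + 1) r (diagonal w) (diagonal_transpose w)
  -- step 5
  have hβ' : -β = C3.det ^ 2 * (u 0 * u 1 * u 2) := hdet.symm
  obtain ⟨v, hv⟩ : ∃ v : Fin (n + 1) → F, v = Fin.cons (-(u 0 * u 1 * u 2)) u' := ⟨_, rfl⟩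
  have s5 : TI (diagonal w) r ↔ TI (diagonal v) r := by
    obtain ⟨g, hg⟩ : ∃ g : Fin (n + 1) → F, g = Fin.cons C3.det (fun _ => 1) := ⟨_, rfl⟩
    have hg0 : ∀ i, g i ≠ 0 := by
      intro i
      rw [hg]
      refine Fin.cases ?_ (fun j => ?_) i
      · exact hC3
      · simp
    have h3 : diagonal w = (diagonal g)ᵀ * diagonal v * diagonal g := by
      rw [diagonal_transpose, diagonal_mul_diagonal, diagonal_mul_diagonal]
      congr 1
      funext i
      rw [hw, hg, hv]
      refine Fin.cases ?_ (fun j => ?_) i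
      · simp only [Fin.cons_zero]
        linear_combination -hβ'
      · simp
    rw [h3]
    refine tig_congr _ _ (diagonal fun i => (g i)⁻¹) ?_ ?_ r
    · rw [diagonal_mul_diagonal, ← diagonal_one]
      congr 1
      funext i
      exact mul_inv_cancel₀ (hg0 i)
    · rw [diagonal_mul_diagonal, ← diagonal_one]
      congr 1
      funext i
      exact inv_mul_cancel₀ (hg0 i)
  rw [s1, s2, s3, s4, s5, hv, hu']

end Pool.Agent.H16.N6B
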